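import Pool.Agent.Lib.MP_99d978_co.Occ

set_option autoImplicit false

namespace Pool.Agent.Occ

/-- neighbourhood masks of the 20-vertex graph -/
def nbK : List ℕ :=
  [0x834, 0x168, 0x2c1, 0x492, 0x12009, 0x24003, 0x48006, 0x8100c, 0x3402, 0x6804, 0xc108,
   0x9201, 0x20980, 0x40310, 0x80620, 0x10c40, 0xa8010, 0x51020, 0xa2040, 0x54080]

/-- masks of the non-neighbours in the 20-vertex graph -/
def nonKL : List ℕ :=
  [0xff7cb, 0xffe97, 0xffd3e, 0xffb6d, 0xedff6, 0xdbffc, 0xb7ff9, 0x7eff3, 0xfcbfd, 0xf97fb,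
   0xf3ef7, 0xf6dfe, 0xdf67f, 0xbfcef, 0x7f9df, 0xef3bf, 0x57fef, 0xaefdf, 0x5dfbf, 0xabf7f]

/-- neighbourhood masks of the Robertson graph -/
def nbR : List ℕ :=
  [0x48012, 0x1105, 0x2004a, 0x4814, 0x229, 0x11050, 0x4a4, 0x44140, 0x10282, 0x2510, 0x8a40,
   0x41408, 0x2822, 0x25200, 0xa088, 0x14401, 0x28120, 0x52004, 0x20881]

/-- masks of the non-neighbours in the circulant graph on 13 vertices -/
def nonCL : List ℕ :=
  [0xedd, 0x1dba, 0x1b75, 0x16eb, 0xdd7, 0x1bae, 0x175d, 0xebb, 0x1d76, 0x1aed, 0x15db, 0xbb7,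
   0x176e]

def nonK (i : ℕ) : ℕ := nonKL.getD i 0
def nonC (i : ℕ) : ℕ := nonCL.getD i 0

def adjK (i j : Fin 20) : Bool := (nbK.getD i.1 0).testBit j.1
def adjR (i j : Fin 19) : Bool := (nbR.getD i.1 0).testBit j.1

theorem adjK_symm : ∀ i j : Fin 20, adjK i j = true → adjK j i = true := by decide +kernel
theorem adjK_irrefl : ∀ i : Fin 20, ¬ adjK i i = true := by decide +kernel
theorem adjR_symm : ∀ i j : Fin 19, adjR i j = true → adjR j i = true := by decide +kernel
theorem adjR_irrefl : ∀ i : Fin 19, ¬ adjR i i = true := by decide +kernel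

/-- the 20-vertex graph -/
def K : SimpleGraph (Fin 20) where
  Adj i j := adjK i j = true
  symm := ⟨fun i j h => adjK_symm i j h⟩
  loopless := ⟨fun i h => adjK_irrefl i h⟩

/-- the Robertson graph -/
def R : SimpleGraph (Fin 19) where
  Adj i j := adjR i j = true
  symm := ⟨fun i j h => adjR_symm i j h⟩
  loopless := ⟨fun i h => adjR_irrefl i h⟩

instance : DecidableRel K.Adj := fun i j => inferInstanceAs (Decidable (adjK i j = true))
instance : DecidableRel R.Adj := fun i j => inferInstanceAs (Decidable (adjR i j = true))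

theorem K_deg : ∀ v : Fin 20, K.degree v = 4 := by decide +kernel
theorem R_deg : ∀ v : Fin 19, R.degree v = 4 := by decide +kernel

theorem K_tri : ∀ a b : Fin 20, adjK a b = true → ∀ c : Fin 20, adjK a c = true →
    adjK b c = true → False := by decide +kernel

theorem K_cliqueFree : K.CliqueFree 3 := by
  intro s hs
  rw [SimpleGraph.is3Clique_iff] at hs
  obtain ⟨a, b, c, h1, h2, h3, _⟩ := hs
  exact K_tri a b h1 c h2 h3

theorem R_tri : ∀ a b : Fin 19, adjR a b = true → ∀ c : Fin 19, adjR b c = true →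
    adjR c a = true → False := by decide +kernel

theorem R_quad_aux : ∀ a b c : Fin 19, adjR a b = true → adjR b c = true →
    (a = c ∨ ∀ d : Fin 19, adjR c d = true → adjR d a = true → b = d) := by decide +kernel

theorem R_quad (a b : Fin 19) (h1 : adjR a b = true) (c : Fin 19) (h2 : adjR b c = true)
    (hac : a ≠ c) (d : Fin 19) (h3 : adjR c d = true) (h4 : adjR d a = true) (hbd : b ≠ d) :
    False := by
  rcases R_quad_aux a b c h1 h2 with h | h
  · exact hac h
  · exact hbd (h d h3 h4)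

theorem R_girth : (5 : ℕ∞) ≤ R.egirth := by
  rw [SimpleGraph.le_egirth]
  intro a w hw
  by_contra hcon
  have h3 := hw.three_le_length
  have h4 : w.length ≤ 4 := by
    have h5 : ¬ (5 ≤ w.length) := fun h => hcon (by exact_mod_cast h)
    omega
  have hnd := hw.support_nodup
  cases w with
  | nil => simp at h3
  | @cons _ b _ e1 w1 =>
    cases w1 with
    | nil => simp at h3
    | @cons _ c _ e2 w2 =>
      cases w2 with
      | nil => simp at h3
      | @cons _ d _ e3 w3 =>
        cases w3 with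
        | nil => exact R_tri a b e1 c e2 e3
        | @cons _ f _ e4 w4 =>
          cases w4 with
          | nil =>
            simp only [SimpleGraph.Walk.support_cons, SimpleGraph.Walk.support_nil,
              List.tail_cons, List.nodup_cons, List.mem_cons, List.not_mem_nil, or_false,
              not_or] at hnd
            exact R_quad a b e1 c e2 (fun h => hnd.2.1.2 h.symm) d e3 e4
              (fun h => hnd.1.2.1 h)
          | cons e5 w5 =>
            simp only [SimpleGraph.Walk.length_cons] at h4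
            omega

theorem evK : ev nonK 20 0xfffff = (72225, 359800) := by decide +kernel
theorem evC : ev nonC 13 0x1fff = (1483, 4810) := by decide +kernel

theorem nonK_adj : ∀ i j : Fin 20, ((nonK i.1).testBit j.1 = true ↔ ¬ adjK i j = true) := by
  decide +kernel

def relC (x y : ZMod 13) : Prop := x ≠ y ∧ ((x - y = 1 ∨ x - y = 5) ∨ (y - x = 1 ∨ y - x = 5))

instance : DecidableRel relC := fun x y =>
  inferInstanceAs (Decidable (x ≠ y ∧ ((x - y = 1 ∨ x - y = 5) ∨ (y - x = 1 ∨ y - x = 5))))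

def eC (i : ℕ) : ZMod 13 := (Fin.ofNat 13 i : Fin 13)

theorem nonC_adj : ∀ i j : Fin 13, ((nonC i.1).testBit j.1 = true ↔ ¬ relC (eC i.1) (eC j.1)) := by
  decide +kernel

theorem K_sums :
    (∑ I : Finset (Fin 20), @ite ℝ (K.IsIndepSet (I : Set (Fin 20)))
      (Classical.propDecidable _) ((2 : ℝ) ^ I.card) 0) = 72225 ∧
    (∑ I : Finset (Fin 20), @ite ℝ (K.IsIndepSet (I : Set (Fin 20)))
      (Classical.propDecidable _) ((I.card : ℝ) * (2 : ℝ) ^ I.card) 0) = 359800 := by
  have h := sums_eq K (fun i => Fin.ofNat 20 i) nonK 20 0xfffff ?_ ?_ ?_ 72225 359800 evK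
  · exact_mod_cast h
  · intro i j hi hj h
    have := congrArg Fin.val h
    simpa [Fin.ofNat, Nat.mod_eq_of_lt hi, Nat.mod_eq_of_lt hj] using this
  · intro v
    refine ⟨v.1, v.2, ?_, ?_⟩
    · have h1 : (0xfffff : ℕ) = 2 ^ 20 - 1 := by norm_num
      rw [h1, Nat.testBit_two_pow_sub_one]
      simpa using v.2
    · apply Fin.ext
      exact Nat.mod_eq_of_lt v.2
  · intro i j hi hj
    have h1 : Fin.ofNat 20 i = (⟨i, hi⟩ : Fin 20) := Fin.ext (Nat.mod_eq_of_lt hi)
    have h2 : Fin.ofNat 20 j = (⟨j, hj⟩ : Fin 20) := Fin.ext (Nat.mod_eq_of_lt hj)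
    simp only [h1, h2]
    exact nonK_adj ⟨i, hi⟩ ⟨j, hj⟩

theorem C_sums :
    (∑ I : Finset (ZMod 13), @ite ℝ
      ((SimpleGraph.fromRel (fun x y : ZMod 13 => x - y = 1 ∨ x - y = 5)).IsIndepSet
        (I : Set (ZMod 13)))
      (Classical.propDecidable _) ((2 : ℝ) ^ I.card) 0) = 1483 ∧
    (∑ I : Finset (ZMod 13), @ite ℝ
      ((SimpleGraph.fromRel (fun x y : ZMod 13 => x - y = 1 ∨ x - y = 5)).IsIndepSet
        (I : Set (ZMod 13)))
      (Classical.propDecidable _) ((I.card : ℝ) * (2 : ℝ) ^ I.card) 0) = 4810 := by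
  have h := sums_eq (SimpleGraph.fromRel (fun x y : ZMod 13 => x - y = 1 ∨ x - y = 5))
    eC nonC 13 0x1fff ?_ ?_ ?_ 1483 4810 evC
  · exact_mod_cast h
  · intro i j hi hj h
    have := congrArg Fin.val (show (Fin.ofNat 13 i : Fin 13) = Fin.ofNat 13 j from h)
    simpa [Fin.ofNat, Nat.mod_eq_of_lt hi, Nat.mod_eq_of_lt hj] using this
  · intro v
    have hv : (show Fin 13 from v).1 < 13 := (show Fin 13 from v).2
    refine ⟨(show Fin 13 from v).1, hv, ?_, ?_⟩
    · have h1 : (0x1fff : ℕ) = 2 ^ 13 - 1 := by norm_num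
      rw [h1, Nat.testBit_two_pow_sub_one]
      simpa using hv
    · apply Fin.ext
      exact Nat.mod_eq_of_lt hv
  · intro i j hi hj
    rw [SimpleGraph.fromRel_adj]
    exact nonC_adj ⟨i, hi⟩ ⟨j, hj⟩

end Pool.Agent.Occ
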