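import Mathlib

set_option autoImplicit false

open Classical

/-!
Weighted sums over independent sets, evaluated by deleting one vertex at a time.
-/

namespace Pool.Agent.Occ

variable {V : Type} (G : SimpleGraph V)

/-- sum of `2 ^ |I|` over the independent subsets of `S` -/
noncomputable def zN (S : Finset V) : ℕ :=
  ∑ I ∈ S.powerset, if G.IsIndepSet (I : Set V) then 2 ^ I.card else 0

/-- sum of `|I| * 2 ^ |I|` over the independent subsets of `S` -/
noncomputable def dN (S : Finset V) : ℕ :=
  ∑ I ∈ S.powerset, if G.IsIndepSet (I : Set V) then I.card * 2 ^ I.card else 0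

theorem indep_insert {v : V} {I : Finset V} (hv : v ∉ I) :
    G.IsIndepSet ((insert v I : Finset V) : Set V) ↔
      (∀ w ∈ I, ¬ G.Adj v w) ∧ G.IsIndepSet (I : Set V) := by
  constructor
  · intro h
    refine ⟨?_, ?_⟩
    · intro w hw hadj
      have hne : v ≠ w := fun h2 => hv (h2 ▸ hw)
      exact h (Finset.mem_coe.mpr (Finset.mem_insert_self v I))
        (Finset.mem_coe.mpr (Finset.mem_insert_of_mem hw)) hne hadj
    · intro x hx y hy hxy
      exact h (Finset.mem_coe.mpr (Finset.mem_insert_of_mem (Finset.mem_coe.mp hx)))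
        (Finset.mem_coe.mpr (Finset.mem_insert_of_mem (Finset.mem_coe.mp hy))) hxy
  · rintro ⟨h1, h2⟩ x hx y hy hxy hadj
    rcases Finset.mem_insert.mp (Finset.mem_coe.mp hx) with hx' | hx' <;>
      rcases Finset.mem_insert.mp (Finset.mem_coe.mp hy) with hy' | hy'
    · exact hxy (hx'.trans hy'.symm)
    · rw [hx'] at hadj
      exact h1 y hy' hadj
    · rw [hy'] at hadj
      exact h1 x hx' hadj.symm
    · exact h2 (Finset.mem_coe.mpr hx') (Finset.mem_coe.mpr hy') hxy hadj

theorem sum_insert_aux (F : ℕ → ℕ) {v : V} {S : Finset V} (hv : v ∉ S) :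
    (∑ I ∈ (insert v S).powerset, if G.IsIndepSet (I : Set V) then F I.card else 0) =
      (∑ I ∈ S.powerset, if G.IsIndepSet (I : Set V) then F I.card else 0) +
      ∑ I ∈ (S.filter (fun w => ¬ G.Adj v w)).powerset,
        if G.IsIndepSet (I : Set V) then F (I.card + 1) else 0 := by
  rw [Finset.sum_powerset_insert hv]
  congr 1
  have h1 : (S.filter (fun w => ¬ G.Adj v w)).powerset =
      S.powerset.filter (fun I => ∀ w ∈ I, ¬ G.Adj v w) := by
    ext I
    simp only [Finset.mem_powerset, Finset.mem_filter, Finset.subset_iff]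
    constructor
    · intro h
      exact ⟨fun x hx => (h hx).1, fun x hx => (h hx).2⟩
    · rintro ⟨h2, h3⟩ x hx
      exact ⟨h2 hx, h3 x hx⟩
  rw [h1, Finset.sum_filter]
  apply Finset.sum_congr rfl
  intro I hI
  have hvI : v ∉ I := fun h => hv (Finset.mem_powerset.mp hI h)
  rw [Finset.card_insert_of_notMem hvI]
  by_cases h2 : ∀ w ∈ I, ¬ G.Adj v w
  · by_cases h3 : G.IsIndepSet (I : Set V)
    · rw [if_pos ((indep_insert G hvI).mpr ⟨h2, h3⟩), if_pos h2, if_pos h3]
    · rw [if_neg (fun h => h3 ((indep_insert G hvI).mp h).2), if_pos h2, if_neg h3]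
  · rw [if_neg (fun h => h2 ((indep_insert G hvI).mp h).1), if_neg h2]

theorem zN_insert {v : V} {S : Finset V} (hv : v ∉ S) :
    zN G (insert v S) = zN G S + 2 * zN G (S.filter (fun w => ¬ G.Adj v w)) := by
  unfold zN
  rw [sum_insert_aux G (fun k => 2 ^ k) hv]
  congr 1
  rw [Finset.mul_sum]
  apply Finset.sum_congr rfl
  intro I _
  split_ifs
  · rw [pow_succ]
    ring
  · rfl

theorem dN_insert {v : V} {S : Finset V} (hv : v ∉ S) :
    dN G (insert v S) = dN G S + 2 * (zN G (S.filter (fun w => ¬ G.Adj v w)) +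
      dN G (S.filter (fun w => ¬ G.Adj v w))) := by
  unfold dN zN
  rw [sum_insert_aux G (fun k => k * 2 ^ k) hv]
  congr 1
  rw [← Finset.sum_add_distrib, Finset.mul_sum]
  apply Finset.sum_congr rfl
  intro I _
  split_ifs
  · rw [pow_succ]
    ring
  · rfl

theorem zN_empty : zN G ∅ = 1 := by
  unfold zN
  simp [SimpleGraph.IsIndepSet]

theorem dN_empty : dN G ∅ = 0 := by
  unfold dN
  simp [SimpleGraph.IsIndepSet]

/-- the recursion on masks; `non k` is the mask of the vertices not adjacent to `k` -/
def ev (non : ℕ → ℕ) (k : ℕ) : ℕ → ℕ × ℕ :=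
  Nat.rec (motive := fun _ => ℕ → ℕ × ℕ) (fun _ => (1, 0))
    (fun k ih m => cond (Nat.testBit m k)
      ((fun a b => (Nat.add a.1 (Nat.mul 2 b.1),
        Nat.add a.2 (Nat.mul 2 (Nat.add b.1 b.2)))) (ih m) (ih (Nat.land m (non k))))
      (ih m)) k

/-- the set of the vertices `e j` with `j < k` and digit `j` of `m` equal to one -/
noncomputable def st (e : ℕ → V) (k m : ℕ) : Finset V :=
  ((Finset.range k).filter (fun j => m.testBit j = true)).image e

theorem st_zero (e : ℕ → V) (m : ℕ) : st e 0 m = ∅ := by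
  unfold st
  simp

theorem st_succ_pos (e : ℕ → V) {k m : ℕ} (h : m.testBit k = true) :
    st e (k + 1) m = insert (e k) (st e k m) := by
  unfold st
  rw [Finset.range_add_one, Finset.filter_insert, if_pos h, Finset.image_insert]

theorem st_succ_neg (e : ℕ → V) {k m : ℕ} (h : m.testBit k = false) :
    st e (k + 1) m = st e k m := by
  unfold st
  rw [Finset.range_add_one, Finset.filter_insert, if_neg (by rw [h]; decide)]

theorem st_filter (e : ℕ → V) (non : ℕ → ℕ) (n : ℕ)
    (hadj : ∀ i j, i < n → j < n → ((non i).testBit j = true ↔ ¬ G.Adj (e i) (e j)))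
    {k : ℕ} (hk : k < n) (m : ℕ) :
    (st e k m).filter (fun w => ¬ G.Adj (e k) w) = st e k (Nat.land m (non k)) := by
  unfold st
  rw [Finset.filter_image, Finset.filter_filter]
  congr 1
  apply Finset.filter_congr
  intro j hj
  have hj' : j < n := lt_trans (Finset.mem_range.mp hj) hk
  have h1 : (Nat.land m (non k)).testBit j = (m.testBit j && (non k).testBit j) :=
    Nat.testBit_and m (non k) j
  rw [h1, Bool.and_eq_true, hadj k j hk hj']

theorem ev_eq (e : ℕ → V) (non : ℕ → ℕ) (n : ℕ)
    (hinj : ∀ i j, i < n → j < n → e i = e j → i = j)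
    (hadj : ∀ i j, i < n → j < n → ((non i).testBit j = true ↔ ¬ G.Adj (e i) (e j))) :
    ∀ k, k ≤ n → ∀ m, ev non k m = (zN G (st e k m), dN G (st e k m)) := by
  intro k
  induction k with
  | zero =>
    intro _ m
    rw [st_zero, zN_empty, dN_empty]
    rfl
  | succ k ih =>
    intro hk m
    have hk' : k < n := hk
    have ih' := ih (le_of_lt hk')
    have hev : ev non (k + 1) m = cond (Nat.testBit m k)
      ((ev non k m).1 + 2 * (ev non k (Nat.land m (non k))).1,
        (ev non k m).2 + 2 * ((ev non k (Nat.land m (non k))).1 +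
          (ev non k (Nat.land m (non k))).2))
      (ev non k m) := rfl
    rw [hev]
    cases hb : Nat.testBit m k with
    | false =>
      rw [cond_false, st_succ_neg e hb, ih']
    | true =>
      have hnot : e k ∉ st e k m := by
        unfold st
        rw [Finset.mem_image]
        rintro ⟨j, hj, hje⟩
        rw [Finset.mem_filter, Finset.mem_range] at hj
        have := hinj j k (lt_trans hj.1 hk') hk' hje
        omega
      rw [cond_true, st_succ_pos e hb, zN_insert G hnot, dN_insert G hnot,
        st_filter G e non n hadj hk' m, ih', ih']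

theorem sums_eq [Fintype V] (e : ℕ → V) (non : ℕ → ℕ) (n full : ℕ)
    (hinj : ∀ i j, i < n → j < n → e i = e j → i = j)
    (hsurj : ∀ v : V, ∃ i, i < n ∧ full.testBit i = true ∧ e i = v)
    (hadj : ∀ i j, i < n → j < n → ((non i).testBit j = true ↔ ¬ G.Adj (e i) (e j)))
    (z d : ℕ) (hev : ev non n full = (z, d)) :
    (∑ I : Finset V, if G.IsIndepSet (I : Set V) then (2 : ℝ) ^ I.card else 0) = (z : ℝ) ∧
    (∑ I : Finset V, if G.IsIndepSet (I : Set V) then (I.card : ℝ) * (2 : ℝ) ^ I.card else 0) =
      (d : ℝ) := by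
  have huniv : st e n full = Finset.univ := by
    ext v
    simp only [Finset.mem_univ, iff_true]
    obtain ⟨i, h1, h2, h3⟩ := hsurj v
    unfold st
    rw [Finset.mem_image]
    exact ⟨i, by rw [Finset.mem_filter, Finset.mem_range]; exact ⟨h1, h2⟩, h3⟩
  have h := ev_eq G e non n hinj hadj n le_rfl full
  rw [hev, huniv, Prod.mk.injEq] at h
  constructor
  · rw [h.1]
    unfold zN
    rw [Finset.powerset_univ]
    push_cast
    rfl
  · rw [h.2]
    unfold dN
    rw [Finset.powerset_univ]
    push_cast
    rfl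

end Pool.Agent.Occ
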