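import Pool.Agent.Lib.MP_99d978_co.Graphs

set_option autoImplicit false

/-!
Sums over independent sets of an arbitrary function of the size, from the numbers of the
independent sets of each size.
-/

namespace Pool.Agent.Occ

open Classical

variable {V : Type} (G : SimpleGraph V)

/-- sum of `F |I|` over the independent subsets of `S` -/
noncomputable def wN (F : ℕ → ℝ) (S : Finset V) : ℝ :=
  ∑ I ∈ S.powerset, if G.IsIndepSet (I : Set V) then F I.card else 0

theorem wN_insert (F : ℕ → ℝ) {v : V} {S : Finset V} (hv : v ∉ S) :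
    wN G F (insert v S) = wN G F S + wN G (fun k => F (k + 1)) (S.filter (fun w => ¬ G.Adj v w)) := by
  unfold wN
  rw [Finset.sum_powerset_insert hv]
  congr 1
  have h1 : (S.filter (fun w => ¬ G.Adj v w)).powerset =
      S.powerset.filter (fun I => ∀ w ∈ I, ¬ G.Adj v w) := by
    ext I
    simp only [Finset.mem_powerset, Finset.mem_filter, Finset.subset_iff]
    constructor
    · intro h
      exact ⟨fun x hx => (h hx).1, fun x hx => (h hx).2⟩
    · rintro ⟨h2, h3⟩ x hx
      exact ⟨h2 hx, h3 x hx⟩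
  rw [h1, Finset.sum_filter]
  apply Finset.sum_congr rfl
  intro I hI
  have hvI : v ∉ I := fun h => hv (Finset.mem_powerset.mp hI h)
  rw [Finset.card_insert_of_notMem hvI]
  by_cases h2 : ∀ w ∈ I, ¬ G.Adj v w
  · by_cases h3 : G.IsIndepSet (I : Set V)
    · rw [if_pos ((indep_insert G hvI).mpr ⟨h2, h3⟩), if_pos h2, if_pos h3]
    · rw [if_neg (fun h => h3 ((indep_insert G hvI).mp h).2), if_pos h2, if_neg h3]
  · rw [if_neg (fun h => h2 ((indep_insert G hvI).mp h).1), if_neg h2]

theorem wN_empty (F : ℕ → ℝ) : wN G F ∅ = F 0 := by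
  unfold wN
  simp [SimpleGraph.IsIndepSet]

/-- sum of two polynomials, given by lists of coefficients -/
def addL : List ℕ → List ℕ → List ℕ
  | [], b => b
  | x :: a, [] => x :: a
  | x :: a, y :: b => Nat.add x y :: addL a b

/-- `∑ c_k F k` -/
noncomputable def dot : (ℕ → ℝ) → List ℕ → ℝ
  | _, [] => 0
  | F, x :: a => x * F 0 + dot (fun k => F (k + 1)) a

theorem dot_addL : ∀ (a b : List ℕ) (F : ℕ → ℝ), dot F (addL a b) = dot F a + dot F b
  | [], b, F => by simp [addL, dot]
  | x :: a, [], F => by simp [addL, dot]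
  | x :: a, y :: b, F => by
    rw [addL, dot, dot, dot, dot_addL a b]
    have h : ((Nat.add x y : ℕ) : ℝ) = (x : ℝ) + y := Nat.cast_add x y
    rw [h]
    ring

/-- the recursion on masks; `non k` is the mask of the vertices not adjacent to `k` -/
def pl (non : ℕ → ℕ) (k : ℕ) : ℕ → List ℕ :=
  Nat.rec (motive := fun _ => ℕ → List ℕ) (fun _ => [1])
    (fun k ih m => cond (Nat.testBit m k)
      (addL (ih m) (0 :: ih (Nat.land m (non k)))) (ih m)) k

theorem pl_eq (e : ℕ → V) (non : ℕ → ℕ) (n : ℕ)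
    (hinj : ∀ i j, i < n → j < n → e i = e j → i = j)
    (hadj : ∀ i j, i < n → j < n → ((non i).testBit j = true ↔ ¬ G.Adj (e i) (e j))) :
    ∀ k, k ≤ n → ∀ m (F : ℕ → ℝ), wN G F (st e k m) = dot F (pl non k m) := by
  intro k
  induction k with
  | zero =>
    intro _ m F
    rw [st_zero, wN_empty]
    simp [pl, dot]
  | succ k ih =>
    intro hk m F
    have hk' : k < n := hk
    have ih' := ih (le_of_lt hk')
    have hev : pl non (k + 1) m = cond (Nat.testBit m k)
      (addL (pl non k m) (0 :: pl non k (Nat.land m (non k)))) (pl non k m) := rfl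
    rw [hev]
    cases hb : Nat.testBit m k with
    | false =>
      rw [cond_false, st_succ_neg e hb, ih']
    | true =>
      have hnot : e k ∉ st e k m := by
        unfold st
        rw [Finset.mem_image]
        rintro ⟨j, hj, hje⟩
        rw [Finset.mem_filter, Finset.mem_range] at hj
        have := hinj j k (lt_trans hj.1 hk') hk' hje
        omega
      rw [cond_true, st_succ_pos e hb, wN_insert G F hnot, st_filter G e non n hadj hk' m, ih',
        ih', dot_addL]
      simp [dot]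

/-- sum of `F |I|` over all independent sets -/
noncomputable def wsum {V : Type} [Fintype V] (G : SimpleGraph V) (F : ℕ → ℝ) : ℝ :=
  ∑ I : Finset V, if G.IsIndepSet (I : Set V) then F I.card else 0

theorem wsum_eq [Fintype V] (e : ℕ → V) (non : ℕ → ℕ) (n full : ℕ)
    (hinj : ∀ i j, i < n → j < n → e i = e j → i = j)
    (hsurj : ∀ v : V, ∃ i, i < n ∧ full.testBit i = true ∧ e i = v)
    (hadj : ∀ i j, i < n → j < n → ((non i).testBit j = true ↔ ¬ G.Adj (e i) (e j)))
    (c : List ℕ) (hev : pl non n full = c) (F : ℕ → ℝ) :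
    wsum G F = dot F c := by
  have huniv : st e n full = Finset.univ := by
    ext v
    simp only [Finset.mem_univ, iff_true]
    obtain ⟨i, h1, h2, h3⟩ := hsurj v
    unfold st
    rw [Finset.mem_image]
    exact ⟨i, by rw [Finset.mem_filter, Finset.mem_range]; exact ⟨h1, h2⟩, h3⟩
  have h := pl_eq G e non n hinj hadj n le_rfl full F
  rw [hev, huniv] at h
  rw [← h]
  unfold wN wsum
  rw [Finset.powerset_univ]

/-- masks of the non-neighbours in the Robertson graph -/
def nonR (i : ℕ) : ℕ := Nat.xor 0x7ffff (nbR.getD i 0)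

theorem plK : pl nonK 20 0xfffff = [1, 20, 150, 540, 988, 888, 328, 16] := by decide +kernel
theorem plC : pl nonC 13 0x1fff = [1, 13, 52, 78, 39] := by decide +kernel
theorem plR : pl nonR 19 0x7ffff = [1, 19, 133, 437, 703, 516, 137, 4] := by decide +kernel

theorem nonR_adj : ∀ i j : Fin 19, ((nonR i.1).testBit j.1 = true ↔ ¬ adjR i j = true) := by
  decide +kernel

theorem K_wsum (F : ℕ → ℝ) :
    wsum K F = dot F [1, 20, 150, 540, 988, 888, 328, 16] := by
  refine wsum_eq K (fun i => Fin.ofNat 20 i) nonK 20 0xfffff ?_ ?_ ?_ _ plK F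
  · intro i j hi hj h
    have := congrArg Fin.val h
    simpa [Fin.ofNat, Nat.mod_eq_of_lt hi, Nat.mod_eq_of_lt hj] using this
  · intro v
    refine ⟨v.1, v.2, ?_, ?_⟩
    · have h1 : (0xfffff : ℕ) = 2 ^ 20 - 1 := by norm_num
      rw [h1, Nat.testBit_two_pow_sub_one]
      simpa using v.2
    · apply Fin.ext
      exact Nat.mod_eq_of_lt v.2
  · intro i j hi hj
    have h1 : Fin.ofNat 20 i = (⟨i, hi⟩ : Fin 20) := Fin.ext (Nat.mod_eq_of_lt hi)
    have h2 : Fin.ofNat 20 j = (⟨j, hj⟩ : Fin 20) := Fin.ext (Nat.mod_eq_of_lt hj)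
    simp only [h1, h2]
    exact nonK_adj ⟨i, hi⟩ ⟨j, hj⟩

theorem R_wsum (F : ℕ → ℝ) :
    wsum R F = dot F [1, 19, 133, 437, 703, 516, 137, 4] := by
  refine wsum_eq R (fun i => Fin.ofNat 19 i) nonR 19 0x7ffff ?_ ?_ ?_ _ plR F
  · intro i j hi hj h
    have := congrArg Fin.val h
    simpa [Fin.ofNat, Nat.mod_eq_of_lt hi, Nat.mod_eq_of_lt hj] using this
  · intro v
    refine ⟨v.1, v.2, ?_, ?_⟩
    · have h1 : (0x7ffff : ℕ) = 2 ^ 19 - 1 := by norm_num
      rw [h1, Nat.testBit_two_pow_sub_one]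
      simpa using v.2
    · apply Fin.ext
      exact Nat.mod_eq_of_lt v.2
  · intro i j hi hj
    have h1 : Fin.ofNat 19 i = (⟨i, hi⟩ : Fin 19) := Fin.ext (Nat.mod_eq_of_lt hi)
    have h2 : Fin.ofNat 19 j = (⟨j, hj⟩ : Fin 19) := Fin.ext (Nat.mod_eq_of_lt hj)
    simp only [h1, h2]
    exact nonR_adj ⟨i, hi⟩ ⟨j, hj⟩

/-- the circulant graph on `ℤ / 13` with `i ∼ j` iff `i - j ∈ {±1, ±5}` -/
def Cyc : SimpleGraph (ZMod 13) where
  Adj i j := i - j = 1 ∨ i - j = -1 ∨ i - j = 5 ∨ i - j = -5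
  symm := ⟨by decide⟩
  loopless := ⟨by decide⟩

def relCyc (i j : ZMod 13) : Bool := decide (i - j = 1 ∨ i - j = -1 ∨ i - j = 5 ∨ i - j = -5)

theorem nonCyc_adj : ∀ i j : Fin 13,
    ((nonC i.1).testBit j.1 = true ↔ ¬ relCyc (eC i.1) (eC j.1) = true) := by
  decide +kernel

theorem C_wsum (F : ℕ → ℝ) :
    wsum Cyc F = dot F [1, 13, 52, 78, 39] := by
  refine wsum_eq Cyc eC nonC 13 0x1fff ?_ ?_ ?_ _ plC F
  · intro i j hi hj h
    have := congrArg Fin.val (show (Fin.ofNat 13 i : Fin 13) = Fin.ofNat 13 j from h)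
    simpa [Fin.ofNat, Nat.mod_eq_of_lt hi, Nat.mod_eq_of_lt hj] using this
  · intro v
    have hv : (show Fin 13 from v).1 < 13 := (show Fin 13 from v).2
    refine ⟨(show Fin 13 from v).1, hv, ?_, ?_⟩
    · have h1 : (0x1fff : ℕ) = 2 ^ 13 - 1 := by norm_num
      rw [h1, Nat.testBit_two_pow_sub_one]
      simpa using hv
    · apply Fin.ext
      exact Nat.mod_eq_of_lt hv
  · intro i j hi hj
    have h := nonCyc_adj ⟨i, hi⟩ ⟨j, hj⟩
    rw [relCyc, decide_eq_true_iff] at h
    exact h

end Pool.Agent.Occ
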