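import Pool.Agent.Lib.MP_99d978_co.Graphs

set_option autoImplicit false

namespace Pool.Agent.Occ

theorem K_reg (inst : K.LocallyFinite) : K.IsRegularOfDegree 4 := by
  intro v
  have h := K_deg v
  convert h

theorem R_reg (inst : R.LocallyFinite) : R.IsRegularOfDegree 4 := by
  intro v
  have h := R_deg v
  convert h

end Pool.Agent.Occ
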